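import Pool.Agent.H33.LooseMain

set_option autoImplicit false

/-!
# `r₃(△, K_t) = o(t^(3/2))`

Problem MP_b7c82d_co, positive answer, in terms of Ramsey numbers of 3-uniform hypergraphs.
-/

open Filter Asymptotics

namespace Pool.Agent.Results.MP_b7c82d_co.LittleO

/-- A 3-uniform hypergraph with the vertex set `V`. -/
structure Hypergraph3 (V : Type) where
  /-- the edges -/
  edges : Set (Finset V)
  uniform : ∀ e ∈ edges, e.card = 3

/-- The loose triangle: six vertices `0, …, 5` and the edges `{0,1,2}`, `{2,3,4}`, `{4,5,0}`. -/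
def looseTriangle : Hypergraph3 (Fin 6) where
  edges := {{0, 1, 2}, {2, 3, 4}, {4, 5, 0}}
  uniform := by
    rintro e (rfl | rfl | rfl) <;> decide

/-- The complete 3-uniform hypergraph on `t` vertices. -/
def clique (t : ℕ) : Hypergraph3 (Fin t) where
  edges := {e | e.card = 3}
  uniform := fun _ h => h

/-- Every colouring of the 3-element subsets of an `N`-element set with two colours `true`, `false`
contains a copy of `F` in the colour `true` or a copy of `G` in the colour `false`. -/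
def Arrow (N : ℕ) {V W : Type} (F : Hypergraph3 V) (G : Hypergraph3 W) : Prop :=
  ∀ c : {e : Finset (Fin N) // e.card = 3} → Bool,
    (∃ φ : V ↪ Fin N, ∀ (e : Finset V) (he : e ∈ F.edges),
      c ⟨e.map φ, (Finset.card_map φ).trans (F.uniform e he)⟩ = true) ∨
    (∃ φ : W ↪ Fin N, ∀ (e : Finset W) (he : e ∈ G.edges),
      c ⟨e.map φ, (Finset.card_map φ).trans (G.uniform e he)⟩ = false)

/-- The Ramsey number `r₃(F, G)`. -/
noncomputable def ramsey {V W : Type} (F : Hypergraph3 V) (G : Hypergraph3 W) : ℕ :=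
  sInf {N | Arrow N F G}

private theorem arrow_of_main {ε : ℝ} (hε : 0 < ε) : ∃ T : ℕ, ∀ t : ℕ, T ≤ t → ∀ n : ℕ,
    ε * (t : ℝ) ^ ((3 : ℝ) / 2) ≤ (n : ℝ) → Arrow n looseTriangle (clique t) := by
  classical
  obtain ⟨T, hT⟩ := H33.Loose.main ε hε
  refine ⟨T, fun t ht n hn c => ?_⟩
  set H : Finset (Finset (Fin n)) :=
    Finset.univ.filter fun e => ∃ h : e.card = 3, c ⟨e, h⟩ = true with hH
  rcases hT t ht n hn H (by
    intro x hx
    rw [hH, Finset.mem_filter] at hx
    exact hx.2.1) with ⟨x0, x1, x2, x3, x4, x5, hnd, h1, h2, h3⟩ | ⟨S, hS, hSH⟩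
  · left
    have hinj : Function.Injective ![x0, x1, x2, x3, x4, x5] := by
      have h := List.nodup_iff_injective_get.1 hnd
      intro i j hij
      have := @h ⟨i, i.2⟩ ⟨j, j.2⟩ (by
        fin_cases i <;> fin_cases j <;> first | rfl | exact hij)
      exact Fin.ext (Fin.mk.inj this)
    refine ⟨⟨![x0, x1, x2, x3, x4, x5], hinj⟩, ?_⟩
    rintro e (rfl | rfl | rfl)
    · rw [hH, Finset.mem_filter] at h1
      obtain ⟨-, h, hc⟩ := h1
      convert hc using 2
      simp [Finset.map_insert]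
    · rw [hH, Finset.mem_filter] at h2
      obtain ⟨-, h, hc⟩ := h2
      convert hc using 2
      simp [Finset.map_insert]
    · rw [hH, Finset.mem_filter] at h3
      obtain ⟨-, h, hc⟩ := h3
      convert hc using 2
      simp [Finset.map_insert]
  · right
    refine ⟨(S.orderEmbOfFin hS).toEmbedding, fun e he => ?_⟩
    by_contra hne
    rw [Bool.not_eq_false] at hne
    refine hSH (e.map (S.orderEmbOfFin hS).toEmbedding) ?_ ?_
    · rw [hH, Finset.mem_filter]
      exact ⟨Finset.mem_univ _, _, hne⟩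
    · intro x hx
      rw [Finset.mem_map] at hx
      obtain ⟨y, -, rfl⟩ := hx
      exact S.orderEmbOfFin_mem hS y

private theorem arrow_mono {N t t' : ℕ} (h : t ≤ t') (ha : Arrow N looseTriangle (clique t')) :
    Arrow N looseTriangle (clique t) := by
  intro c
  rcases ha c with h1 | ⟨φ, hφ⟩
  · exact Or.inl h1
  · refine Or.inr ⟨(Fin.castLEEmb h).trans φ, fun e he => ?_⟩
    have h2 := hφ (e.map (Fin.castLEEmb h)) ((Finset.card_map _).trans he)
    rw [← h2]
    congr 2
    rw [Finset.map_map]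

/-- **Positive answer.**  The Ramsey numbers `r₃(△, K_t)` exist and are `o(t^(3/2))`. -/
theorem result : (∀ t : ℕ, ∃ N : ℕ, Arrow N looseTriangle (clique t)) ∧
    (fun t : ℕ => (ramsey looseTriangle (clique t) : ℝ)) =o[atTop]
      fun t : ℕ => (t : ℝ) ^ ((3 : ℝ) / 2) := by
  constructor
  · intro t
    obtain ⟨T, hT⟩ := arrow_of_main one_pos
    obtain ⟨n, hn⟩ := exists_nat_ge ((1 : ℝ) * ((max t T : ℕ) : ℝ) ^ ((3 : ℝ) / 2))
    exact ⟨n, arrow_mono (le_max_left t T) (hT (max t T) (le_max_right t T) n hn)⟩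
  · rw [isLittleO_iff]
    intro c hc
    obtain ⟨T, hT⟩ := arrow_of_main (half_pos hc)
    filter_upwards [eventually_ge_atTop T, tendsto_natCast_atTop_atTop.eventually
      (eventually_ge_atTop (max 1 (2 / c)))] with t ht ht2
    have h1 : (1 : ℝ) ≤ t := (le_max_left _ _).trans ht2
    have h2 : 2 / c ≤ (t : ℝ) := (le_max_right _ _).trans ht2
    have h3 : (t : ℝ) ≤ (t : ℝ) ^ ((3 : ℝ) / 2) := by
      conv_lhs => rw [← Real.rpow_one (t : ℝ)]
      exact Real.rpow_le_rpow_of_exponent_le h1 (by norm_num)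
    have h4 : 2 ≤ c * (t : ℝ) ^ ((3 : ℝ) / 2) := by
      have : 2 / c ≤ (t : ℝ) ^ ((3 : ℝ) / 2) := h2.trans h3
      rwa [div_le_iff₀' hc] at this
    have hle : ramsey looseTriangle (clique t) ≤ ⌈c / 2 * (t : ℝ) ^ ((3 : ℝ) / 2)⌉₊ :=
      Nat.sInf_le (hT t ht _ (Nat.le_ceil _))
    have h5 : ((⌈c / 2 * (t : ℝ) ^ ((3 : ℝ) / 2)⌉₊ : ℕ) : ℝ) < c / 2 * (t : ℝ) ^ ((3 : ℝ) / 2) + 1 :=
      Nat.ceil_lt_add_one (by positivity)
    have h6 : (0 : ℝ) ≤ (t : ℝ) ^ ((3 : ℝ) / 2) := by positivity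
    rw [Real.norm_of_nonneg (Nat.cast_nonneg _), Real.norm_of_nonneg h6]
    have h7 : (ramsey looseTriangle (clique t) : ℝ) ≤ ⌈c / 2 * (t : ℝ) ^ ((3 : ℝ) / 2)⌉₊ := by
      exact_mod_cast hle
    linarith

end Pool.Agent.Results.MP_b7c82d_co.LittleO
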